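import Pool.Agent.Helper23.MC.Goals3
import Pool.Agent.Helper88.CS.PM2
import Pool.Agent.Helper88.RR.KI

/-! # Project MC, packet PMA: the parameters -/

set_option autoImplicit false

open Finset Filter Topology

open scoped Classical

namespace Pool.Agent.Helper88.MC

open Pool.Agent.Helper88.PP (pr om QQ)
open Pool.Agent.Helper88.CR (Rec)
open Pool.Agent.Helper88.CS (pm2_ev)
open Pool.Agent.Helper23.MC (StmtPMA SrA)

/-- The parameters. -/
theorem pma : StmtPMA := by
  obtain ⟨C3, hC3, hmp⟩ := Pool.Agent.Helper37.PP.mp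
  refine ⟨max 1 (512 * C3), le_max_left _ _, ?_⟩
  set A' : ℝ := max 1 (512 * C3) with hA'
  have hA1 : 1 ≤ A' := le_max_left _ _
  have hA2 : 512 * C3 ≤ A' := le_max_right _ _
  clear_value A'
  intro A C c E0 hA3 hC hc hc1
  have t2 : Tendsto (fun x : ℕ => Real.log (Real.log (x : ℝ))) atTop atTop :=
    Real.tendsto_log_atTop.comp (Real.tendsto_log_atTop.comp tendsto_natCast_atTop_atTop)
  obtain ⟨x0, hx0⟩ := eventually_atTop.1 (pm2_ev 1 C c E0 le_rfl hC hc)
  obtain ⟨x0', hx0'⟩ := eventually_atTop.1 (t2.eventually_ge_atTop ((A : ℝ) + 1))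
  refine ⟨max x0 x0', fun x hx => ?_⟩
  obtain ⟨a1, a2, a4, a5, a6, a7, a8, a9, a10⟩ := hx0 x ((le_max_left _ _).trans hx)
  have a11 := hx0' x ((le_max_right _ _).trans hx)
  have hA3r : (3 : ℝ) ≤ A := by exact_mod_cast hA3
  set l1 := Real.log (x : ℝ) with h1
  set l2 := Real.log l1 with h2
  set l3 := Real.log l2 with h3
  set l4 := Real.log l3 with h4
  have hl1 : 1600 ≤ l1 := by nlinarith only [hC, hc1, a8, a6, a5, a9, a2]
  have hl10 : 0 < l1 := by linarith only [hl1]
  have hl2 : 0 < l2 := by linarith only [a2]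
  have hl3 : 0 < l3 := by linarith only [a4]
  have hl4 : 0 < l4 := by linarith only [a5]
  have hxpos : (0 : ℝ) < x := by
    by_contra hcon
    have h5 : (x : ℝ) = 0 := le_antisymm (not_lt.1 hcon) (Nat.cast_nonneg _)
    rw [h1, h5, Real.log_zero] at hl10
    linarith only [hl10]
  -- the scale
  set t := √(√l1) with ht
  have ht4 : t ^ 4 = l1 := by
    have h5 : t ^ 2 = √l1 := Real.sq_sqrt (Real.sqrt_nonneg _)
    have h6 : √l1 ^ 2 = l1 := Real.sq_sqrt hl10.le
    calc t ^ 4 = (t ^ 2) ^ 2 := by ring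
      _ = l1 := by rw [h5, h6]
  have hl23 : 0 < l2 ^ 3 := by positivity
  have ht0 : 4 ≤ t := by linarith only [a10, hl23]
  obtain ⟨E, hE⟩ : ∃ E, E = ⌊t⌋₊ := ⟨_, rfl⟩
  have hE1 : (E : ℝ) ≤ t := by rw [hE]; exact Nat.floor_le (by linarith only [a10, hl23])
  have hE2 : t < (E : ℝ) + 1 := by rw [hE]; exact Nat.lt_floor_add_one _
  have hE3 : (3 : ℝ) ≤ E := by linarith only [a10, hl23, hE2]
  have hEpos : (0 : ℝ) < E := by linarith only [a10, hl23, hE2]
  have hE0' : 1 ≤ E := by exact_mod_cast (by linarith only [a10, hl23, hE2] : (1 : ℝ) ≤ E)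
  have hE4 : (E : ℝ) ^ 4 ≤ l1 := by
    rw [← ht4]
    exact pow_le_pow_left₀ hEpos.le hE1 4
  have hE5 : l2 ^ 3 ≤ E := by linarith only [a10, hE2]
  have hE6 : E0 ≤ E := by
    rw [hE]
    exact Nat.le_floor a1
  have hE7 : t ≤ 2 * E := by linarith only [a10, hl23, hE2]
  have hE8 : l1 ≤ 16 * (E : ℝ) ^ 4 := by
    rw [← ht4]
    calc t ^ 4 ≤ (2 * (E : ℝ)) ^ 4 := pow_le_pow_left₀ (by linarith only [a10, hl23]) hE7 4
      _ = 16 * (E : ℝ) ^ 4 := by ring
  have hlogE : l2 ≤ 8 * Real.log E := by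
    have h5 : l2 ≤ Real.log (16 * (E : ℝ) ^ 4) := Real.log_le_log hl10 hE8
    rw [Real.log_mul (by norm_num) (by positivity), Real.log_pow] at h5
    have h6 : Real.log (16 : ℝ) = 4 * Real.log 2 := by
      rw [show (16 : ℝ) = 2 ^ 4 by norm_num, Real.log_pow]
      norm_num
    have := Real.log_two_lt_d9
    push_cast at h5
    rw [h6] at h5
    linarith only [a2, h5, this]
  have hlogE0 : 0 < Real.log E := by linarith only [a2, hlogE]
  have hE9 : 4 * (E : ℝ) ^ 2 ≤ l1 := by
    have h5 : 4 * (E : ℝ) ^ 2 ≤ (E : ℝ) ^ 4 := by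
      have h6 : (4 : ℝ) ≤ (E : ℝ) ^ 2 := by nlinarith only [hl1, hE8]
      have h7 : (E : ℝ) ^ 4 = (E : ℝ) ^ 2 * (E : ℝ) ^ 2 := by ring
      rw [h7]
      exact mul_le_mul_of_nonneg_right h6 (by positivity)
    linarith only [hE4, h5]
  obtain ⟨z, z1, z2, z3⟩ := Pool.Agent.Helper88.PP.root_exists E 1 x hE0' (by
    rw [one_pow]
    exact_mod_cast (Nat.cast_pos.1 hxpos))
  have hzpos : (0 : ℝ) < z := by exact_mod_cast (by omega : 0 < z)
  have hz1' : (1 : ℝ) ≤ z := by exact_mod_cast z1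
  have hlz2 : Real.log z ≤ l1 / E := by
    rw [le_div_iff₀ hEpos, mul_comm, ← Real.log_pow]
    exact Real.log_le_log (by positivity) (by exact_mod_cast z2)
  have hlz1 : l1 / (2 * E) ≤ Real.log z := by
    have h5 : l1 ≤ E * Real.log ((z : ℝ) + 1) := by
      rw [← Real.log_pow]
      exact Real.log_le_log hxpos (by exact_mod_cast z3.le)
    have h6 : Real.log ((z : ℝ) + 1) ≤ Real.log z + Real.log 2 := by
      rw [← Real.log_mul (by positivity) (by norm_num)]
      exact Real.log_le_log (by positivity) (by linarith only [hz1'])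
    have h7 := Real.log_two_lt_d9
    have h8 : 2 * (E : ℝ) ≤ l1 := by nlinarith only [hl1, hE9, a10, hl23, hE2]
    rw [div_le_iff₀ (by positivity)]
    have h9 : (E : ℝ) * Real.log ((z : ℝ) + 1) ≤ E * (Real.log z + Real.log 2) :=
      mul_le_mul_of_nonneg_left h6 hEpos.le
    have h10 : (E : ℝ) * Real.log 2 ≤ E * 1 := mul_le_mul_of_nonneg_left (by linarith only [h7]) hEpos.le
    have h11 : (E : ℝ) * (Real.log z + Real.log 2) = E * Real.log z + E * Real.log 2 := by ring
    have h12 : Real.log z * (2 * E) = 2 * (E * Real.log z) := by ring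
    rw [h12]
    linarith only [h5, h8, h9, h10]
  have hlzE : (E : ℝ) ≤ Real.log z := by
    refine le_trans ?_ hlz1
    rw [le_div_iff₀ (by positivity)]
    nlinarith only [hl1, hE9]
  have hzE : Real.exp E ≤ z := by
    rw [← Real.le_log_iff_exp_le hzpos]
    exact hlzE
  have hlz0 : 0 < Real.log z := by linarith only [a10, hl23, hE2, hlzE]
  -- w
  set w := ⌊l1 / (C * l2 ^ 2)⌋₊ with hw
  have hC0 : 0 < C := by linarith only [hC]
  have hCl : 0 < C * l2 ^ 2 := by positivity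
  have hw1 : (w : ℝ) ≤ l1 / (C * l2 ^ 2) := Nat.floor_le (by positivity)
  have hw2 : l1 / (C * l2 ^ 2) < w + 1 := Nat.lt_floor_add_one _
  have hws : √l1 ≤ w := by
    have : √l1 + 1 ≤ l1 / (C * l2 ^ 2) := by
      rw [le_div_iff₀ hCl]
      exact a7
    linarith only [hw2, this]
  have hwC : C * (w * l2 ^ 2) ≤ l1 := by
    rw [le_div_iff₀ hCl] at hw1
    linarith only [hw1]
  have hs1 : 1 ≤ √l1 := by
    rw [Real.one_le_sqrt]
    linarith only [hl1]
  have hwpos : (0 : ℝ) < w := by linarith only [hws, hs1]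
  have hwhalf : l1 / (C * l2 ^ 2) ≤ 2 * w := by linarith only [hw2, hws, hs1]
  have hCl20 : 20 ≤ C * l2 ^ 2 := by
    have h5 : (20 : ℝ) ≤ l2 ^ 2 := by nlinarith only [hC, hc1, a6, a5, a9, a2]
    calc (20 : ℝ) ≤ l2 ^ 2 := h5
      _ = 1 * l2 ^ 2 := by ring
      _ ≤ C * l2 ^ 2 := mul_le_mul_of_nonneg_right hC (by positivity)
  have hw20 : (w : ℝ) ≤ l1 / 20 := by
    refine hw1.trans ?_
    exact div_le_div_of_nonneg_left (by linarith only [hl1]) (by norm_num) hCl20
  have hwl1 : (w : ℝ) ≤ l1 := by linarith only [hl1, hw20]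
  -- logarithms of w
  have g1 : l2 / 2 ≤ Real.log w := by
    have h5 : Real.log (√l1) ≤ Real.log w := Real.log_le_log (by linarith only [hs1]) hws
    rw [Real.log_sqrt (by linarith only [hl1])] at h5
    exact h5
  have g2 : Real.log w ≤ l2 := Real.log_le_log hwpos hwl1
  have g1' : 0 < Real.log w := by linarith only [a2, g1]
  have g3 : l3 / 2 ≤ Real.log (Real.log w) := by
    have h5 : Real.log (l2 / 2) ≤ Real.log (Real.log w) := Real.log_le_log (by linarith only [a2]) g1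
    rw [Real.log_div (by linarith only [a2]) (by norm_num)] at h5
    have := Real.log_two_lt_d9
    linarith only [a4, h5, this]
  have g4 : Real.log (Real.log w) ≤ l3 := Real.log_le_log g1' g2
  have g3' : 0 < Real.log (Real.log w) := by linarith only [a4, g3]
  have g5 : l4 / 2 ≤ Real.log (Real.log (Real.log w)) := by
    have h5 : Real.log (l3 / 2) ≤ Real.log (Real.log (Real.log w)) :=
      Real.log_le_log (by linarith only [a4]) g3
    rw [Real.log_div (by linarith only [a4]) (by norm_num)] at h5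
    have := Real.log_two_lt_d9
    linarith only [a5, h5, this]
  -- Rec
  set G : ℝ := l1 * l2 ^ 2 * l4 / l3 ^ 2 with hG
  have hRec : Rec x = G := rfl
  have hBG : 1 * (l1 * l2) ≤ c * G := by
    rw [hG]
    have h5 : 1 * (l1 * l2) * l3 ^ 2 ≤ c * (l1 * l2 ^ 2 * l4) := by
      calc 1 * (l1 * l2) * l3 ^ 2 = (l1 * l2) * (1 * l3 ^ 2) := by ring
        _ ≤ (l1 * l2) * (c * l2) := mul_le_mul_of_nonneg_left a6 (by positivity)
        _ = (c * (l1 * l2 ^ 2)) * 1 := by ring
        _ ≤ (c * (l1 * l2 ^ 2)) * l4 := mul_le_mul_of_nonneg_left (by linarith only [a5]) (by positivity)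
        _ = c * (l1 * l2 ^ 2 * l4) := by ring
    rw [← mul_div_assoc, le_div_iff₀ (by positivity)]
    exact h5
  have hG0 : 0 < G := by positivity
  have hl12 : l1 ≤ l1 * l2 := by nlinarith only [a8, a2]
  have hl12' : 0 < l1 * l2 := by positivity
  have hcG1 : l1 * l2 ≤ c * G := by
    calc l1 * l2 = 1 * (l1 * l2) := by ring
      _ ≤ c * G := hBG
  have hGle : G ≤ l1 * l2 ^ 2 := by
    rw [hG, div_le_iff₀ (by positivity)]
    have h5 : l4 ≤ l3 := by
      have := Real.log_le_sub_one_of_pos hl3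
      linarith only [this]
    have h6 : l4 ≤ l3 ^ 2 := by nlinarith only [hC, a5, a9]
    exact mul_le_mul_of_nonneg_left h6 (by positivity)
  have hGle2 : 64 * C * G ≤ l1 * l2 ^ 2 := by
    have h5 : 64 * C * G = l1 * l2 ^ 2 * (64 * C * l4) / l3 ^ 2 := by
      rw [hG]
      ring
    rw [h5, div_le_iff₀ (by positivity)]
    exact mul_le_mul_of_nonneg_left a9 (by positivity)
  -- Y
  set Y := ⌈c * G⌉₊ with hY
  have hY1 : c * G ≤ Y := Nat.le_ceil _
  have hY2 : (Y : ℝ) < c * G + 1 := Nat.ceil_lt_add_one (by positivity)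
  have hY3 : (Y : ℝ) ≤ 2 * (c * G) := by linarith only [hl1, hBG, hl12, hY2]
  have hY4 : (Y : ℝ) ≤ 2 * (l1 * l2 ^ 2) := by
    calc (Y : ℝ) ≤ 2 * (c * G) := hY3
      _ ≤ 2 * (1 * (l1 * l2 ^ 2)) := by gcongr
      _ = _ := by ring
  have hY5 : (Y : ℝ) ≤ l1 ^ 2 := by
    calc (Y : ℝ) ≤ 2 * (l1 * l2 ^ 2) := hY4
      _ = l1 * (2 * l2 ^ 2) := by ring
      _ ≤ l1 * l1 := mul_le_mul_of_nonneg_left (by nlinarith only [a8, hl1]) (by linarith only [hl1])
      _ = l1 ^ 2 := by ring
  have hlY : l1 ≤ Y := by linarith only [hBG, hl12, hY1]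
  -- y
  set y := ⌈l1 ^ A⌉₊ with hy
  have hl1A : l1 ^ 2 ≤ l1 ^ A := pow_le_pow_right₀ (by linarith only [hl1]) (by omega)
  have hl1A0 : 0 < l1 ^ A := by positivity
  have hy1 : l1 ^ A ≤ y := Nat.le_ceil _
  have hy5 : (y : ℝ) ≤ l1 ^ (A + 1) := by
    have h5 : (y : ℝ) < l1 ^ A + 1 := Nat.ceil_lt_add_one hl1A0.le
    have h6 : 1 ≤ l1 ^ A := one_le_pow₀ (by linarith only [hl1])
    calc (y : ℝ) ≤ l1 ^ A + l1 ^ A := by linarith only [hl1, hBG, hl12, hY1, hY5, hl1A, h5]
      _ = l1 ^ A * 2 := by ring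
      _ ≤ l1 ^ A * l1 := mul_le_mul_of_nonneg_left (by linarith only [hl1]) hl1A0.le
      _ = l1 ^ (A + 1) := (pow_succ _ _).symm
  have hl1sq : l1 ≤ l1 ^ 2 := by nlinarith only [hBG, hl12, hY1, hY5]
  have hly : l1 ≤ y := by linarith only [hBG, hl12, hY1, hY5, hl1A, hy1]
  have hYy : Y ≤ y := by
    have h5 : (Y : ℝ) ≤ y := by linarith only [hY5, hl1A, hy1]
    exact_mod_cast h5
  have hyz : (y : ℝ) ≤ z := by
    refine hy5.trans ?_
    have h5 : Real.log (l1 ^ (A + 1)) ≤ Real.log z := by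
      rw [Real.log_pow]
      push_cast
      refine le_trans ?_ hlzE
      have h6 : (A : ℝ) + 1 ≤ l2 ^ 2 := by nlinarith only [hC, hc1, a11, a6, a5, a9, a2]
      have h7 : l2 ^ 3 = l2 ^ 2 * l2 := by ring
      have h8 : ((A : ℝ) + 1) * l2 ≤ l2 ^ 2 * l2 := mul_le_mul_of_nonneg_right h6 hl2.le
      linarith only [a10, hE2, h8]
    exact (Real.log_le_log_iff (by positivity) hzpos).1 h5
  have hyz' : y ≤ z := by exact_mod_cast hyz
  have hy2' : 2 ≤ y := by
    have : (2 : ℝ) ≤ y := by linarith only [hl1, hBG, hl12, hY1, hY5, hl1A, hy1]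
    exact_mod_cast this
  have hlogy1 : l2 ≤ Real.log y := Real.log_le_log (by linarith only [hl1]) hly
  have hlogy2 : Real.log y ≤ 2 * A * l2 := by
    have h5 : Real.log y ≤ Real.log (l1 ^ (A + 1)) := Real.log_le_log (by linarith only [hl1, hBG, hl12, hY1, hY5, hl1A, hy1]) hy5
    rw [Real.log_pow] at h5
    push_cast at h5
    refine h5.trans (mul_le_mul_of_nonneg_right (by linarith only [hA3r]) hl2.le)
  -- om
  have hom1 : om y z ≤ C3 * (4 * A * l2 * E / l1) := by
    refine (hmp y z hy2' hyz').trans ?_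
    refine mul_le_mul_of_nonneg_left ?_ hC3.le
    rw [div_le_div_iff₀ hlz0 hl10]
    have h5 : l1 ≤ 2 * E * Real.log z := by
      rw [div_le_iff₀ (by positivity)] at hlz1
      linarith only [hlz1]
    calc Real.log y * l1 ≤ (2 * A * l2) * (2 * E * Real.log z) := by gcongr
      _ = 4 * A * l2 * E * Real.log z := by ring
  have hom0 : 0 ≤ om y z := Pool.Agent.Helper88.RR.om_nonneg y z
  refine ⟨E, z, w, y, Y, hE6, ⟨hzE, z2, z3, hly, hy5, hE5⟩, hy1, hyz', hYy, hY5, hws, hwC,
    ?_, ?_, ?_, hY1, ?_, ?_, hE4⟩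
  · unfold QQ
    apply primorial_dvd_primorial
    exact Nat.le_floor hw20
  · calc (w : ℝ) * Real.log w ≤ l1 * l2 := by gcongr
      _ ≤ c * G := hcG1
      _ ≤ Y := hY1
  · have h5 : 2 * (c * G) ≤ 2 * G := by
      have := mul_le_mul_of_nonneg_right hc1 hG0.le
      linarith only [this]
    have h6 : (w : ℝ) * (l2 / 2) ^ 4 ≤ w * Real.log w ^ 4 := by gcongr
    have h7 : l1 * l2 ^ 2 / (32 * C) ≤ w * (l2 / 2) ^ 4 := by
      have h8 : l1 * l2 ^ 2 / (32 * C) = l1 / (C * l2 ^ 2) * (l2 ^ 4 / 32) := by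
        field_simp
      rw [h8]
      calc l1 / (C * l2 ^ 2) * (l2 ^ 4 / 32) ≤ (2 * w) * (l2 ^ 4 / 32) := by gcongr
        _ = w * (l2 / 2) ^ 4 := by ring
    have h9 : 2 * G ≤ l1 * l2 ^ 2 / (32 * C) := by
      rw [le_div_iff₀ (by positivity)]
      linarith only [hGle2]
    linarith only [hl1, hBG, hl12, hY2, h5, h6, h7, h9]
  · have h5 : (Y : ℝ) * Real.log (Real.log w) ^ 2 /
        (Real.log w ^ 2 * Real.log (Real.log (Real.log w))) ≤ 16 * c * l1 := by
      calc (Y : ℝ) * Real.log (Real.log w) ^ 2 /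
            (Real.log w ^ 2 * Real.log (Real.log (Real.log w)))
          ≤ (2 * (c * G)) * l3 ^ 2 / ((l2 / 2) ^ 2 * (l4 / 2)) := by
            apply div_le_div₀ (by positivity) _ (by positivity) (by gcongr)
            gcongr
        _ = 16 * c * l1 := by
            rw [hG]
            field_simp
            ring
    calc (Y : ℝ) * Real.log (Real.log w) ^ 2 /
          (Real.log w ^ 2 * Real.log (Real.log (Real.log w))) * om y z
        ≤ 16 * c * l1 * (C3 * (4 * A * l2 * E / l1)) := by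
          apply mul_le_mul h5 hom1 hom0 (by positivity)
      _ = 64 * C3 * A * c * (E * l2) := by
          field_simp
          ring
      _ ≤ 64 * C3 * A * c * (E * (8 * Real.log E)) := by
          gcongr
      _ = 512 * C3 * (A * c * (E * Real.log E)) := by ring
      _ ≤ A' * (A * c * (E * Real.log E)) := by
          apply mul_le_mul_of_nonneg_right hA2 (by positivity)
      _ = A' * A * c * (E * Real.log E) := by ring
  · rw [div_le_iff₀ hEpos]
    refine hom1.trans ?_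
    calc C3 * (4 * A * l2 * E / l1) ≤ C3 * (4 * A * (2 * Real.log w) * E / l1) := by
          gcongr
          linarith only [g1]
      _ = (8 * C3) * (A * (Real.log w / l1 * E)) := by ring
      _ ≤ A' * (A * (Real.log w / l1 * E)) := by
          apply mul_le_mul_of_nonneg_right _ (by positivity)
          linarith only [hC3, hA2]
      _ = A' * A * Real.log w / l1 * E := by ring

end Pool.Agent.Helper88.MC
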